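import Pool.Agent.ZP3.Stmts

/-!
Squad ZP3: small lemmas on approximations in ultrametric fields.
-/

set_option autoImplicit false

namespace Pool.Agent.ZP3.H51

open Polynomial Pool.Agent.ZPT Pool.Agent.ZP3

section
variable {K : Type} [NormedField K] [IsUltrametricDist K]

theorem add_le' {x y : K} {c : ℝ} (hx : ‖x‖ ≤ c) (hy : ‖y‖ ≤ c) : ‖x + y‖ ≤ c :=
  (IsUltrametricDist.norm_add_le_max x y).trans (max_le hx hy)

theorem sub_le' {x y : K} {c : ℝ} (hx : ‖x‖ ≤ c) (hy : ‖y‖ ≤ c) : ‖x - y‖ ≤ c := by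
  rw [sub_eq_add_neg]
  exact add_le' hx (by rwa [norm_neg])

theorem tri {x y z : K} {c : ℝ} (h1 : ‖x - y‖ ≤ c) (h2 : ‖y - z‖ ≤ c) : ‖x - z‖ ≤ c := by
  have h : x - z = (x - y) + (y - z) := by ring
  rw [h]; exact add_le' h1 h2

theorem mul_near {x x' y y' : K} {c : ℝ} (hx : ‖x‖ ≤ 1) (hy' : ‖y'‖ ≤ 1)
    (h1 : ‖x - x'‖ ≤ c) (h2 : ‖y - y'‖ ≤ c) : ‖x * y - x' * y'‖ ≤ c := by
  have h : x * y - x' * y' = x * (y - y') + (x - x') * y' := by ring
  rw [h]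
  refine add_le' ?_ ?_
  · rw [norm_mul]; nlinarith [norm_nonneg x, norm_nonneg (y - y')]
  · rw [norm_mul]; nlinarith [norm_nonneg y', norm_nonneg (x - x')]

theorem pow_near {x x' : K} (hx : ‖x‖ ≤ 1) (hx' : ‖x'‖ ≤ 1) (n : ℕ) :
    ‖x ^ n - x' ^ n‖ ≤ ‖x - x'‖ := by
  induction n with
  | zero => simp
  | succ n ih =>
    rw [pow_succ, pow_succ]
    refine mul_near ?_ hx' ih le_rfl
    rw [norm_pow]; exact pow_le_one₀ (norm_nonneg x) hx

theorem norm_one_of_near {x y : K} (hy : ‖y‖ = 1) (h : ‖x - y‖ < 1) : ‖x‖ = 1 := by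
  have h3 : ‖(x - y) + y‖ = max ‖x - y‖ ‖y‖ := by
    apply IsUltrametricDist.norm_add_eq_max_of_norm_ne_norm
    rw [hy]; exact h.ne
  rw [sub_add_cancel, hy, max_eq_right h.le] at h3
  exact h3

theorem norm_eq_of_near {x y : K} (h : ‖x - y‖ < ‖y‖) : ‖x‖ = ‖y‖ := by
  have h3 : ‖(x - y) + y‖ = max ‖x - y‖ ‖y‖ :=
    IsUltrametricDist.norm_add_eq_max_of_norm_ne_norm h.ne
  rw [sub_add_cancel, max_eq_right h.le] at h3
  exact h3

theorem norm_nat_eq_one {p : ℕ} (hp : p.Prime) [CharZero K] (hE : Ext p K) {n : ℕ}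
    (hn : ¬ p ∣ n) : ‖(n : K)‖ = 1 := by
  have h1 := hE (n : ℚ)
  rw [Rat.cast_natCast] at h1
  rw [h1]
  haveI := Fact.mk hp
  rw [padicNorm.nat_eq_one_iff n |>.mpr hn]
  simp

theorem norm_p {p : ℕ} (hp : p.Prime) [CharZero K] (hE : Ext p K) : ‖(p : K)‖ = (p : ℝ)⁻¹ := by
  have h1 := hE (p : ℚ)
  rw [Rat.cast_natCast] at h1
  rw [h1]
  haveI := Fact.mk hp
  rw [padicNorm.padicNorm_p_of_prime]
  simp

theorem norm_nat_le {p : ℕ} [CharZero K] (n : ℕ) : ‖(n : K)‖ ≤ 1 :=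
  IsUltrametricDist.norm_natCast_le_one K n

/-- Truncation of a power series with integral coefficients. -/
theorem trunc [CompleteSpace K] (A : ℕ → K) (hA : ∀ n, ‖A n‖ ≤ 1) (t : K) (ht : ‖t‖ < 1)
    (N : ℕ) : ‖(∑' n : ℕ, A n * t ^ n) - ∑ n ∈ Finset.range N, A n * t ^ n‖ ≤ ‖t‖ ^ N := by
  have hs : Summable fun n : ℕ => A n * t ^ n := by
    refine Summable.of_norm_bounded (summable_geometric_of_lt_one (norm_nonneg t) ht) fun n => ?_
    rw [norm_mul, norm_pow]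
    have := pow_nonneg (norm_nonneg t) n
    nlinarith [hA n]
  rw [← hs.sum_add_tsum_nat_add N, add_sub_cancel_left]
  refine IsUltrametricDist.norm_tsum_le_of_forall_le_of_nonneg (pow_nonneg (norm_nonneg t) N)
    fun n => ?_
  rw [norm_mul, norm_pow, pow_add]
  have h1 := pow_nonneg (norm_nonneg t) n
  have h2 := pow_nonneg (norm_nonneg t) N
  have h3 : ‖t‖ ^ n ≤ 1 := pow_le_one₀ (norm_nonneg t) ht.le
  have h4 : ‖t‖ ^ n * ‖t‖ ^ N ≤ ‖t‖ ^ N := by nlinarith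
  nlinarith [hA (n + N), mul_nonneg h1 h2]

/-- Truncation of a polynomial with integral coefficients. -/
theorem ptrunc (f : K[X]) (hf : ∀ n, ‖f.coeff n‖ ≤ 1) (t : K) (ht : ‖t‖ ≤ 1) (N : ℕ) :
    ‖f.eval t - ∑ n ∈ Finset.range N, f.coeff n * t ^ n‖ ≤ ‖t‖ ^ N := by
  have h1 : f.eval t = ∑ n ∈ Finset.range (N + (f.natDegree + 1)), f.coeff n * t ^ n := by
    rw [Polynomial.eval_eq_sum_range' (n := N + (f.natDegree + 1)) (by omega)]
  rw [h1, Finset.sum_range_add, add_sub_cancel_left]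
  refine IsUltrametricDist.norm_sum_le_of_forall_le_of_nonneg (pow_nonneg (norm_nonneg t) N)
    fun n _ => ?_
  rw [norm_mul, norm_pow, pow_add]
  have h1 := pow_nonneg (norm_nonneg t) n
  have h2 := pow_nonneg (norm_nonneg t) N
  have h3 : ‖t‖ ^ n ≤ 1 := pow_le_one₀ (norm_nonneg t) ht
  have h4 : ‖t‖ ^ N * ‖t‖ ^ n ≤ ‖t‖ ^ N := by nlinarith
  nlinarith [hf (N + n), mul_nonneg h2 h1]

/-- The subring of unramified elements. -/
def urR (hU : URRStmt) {p : ℕ} (hp : p.Prime) [CharZero K] (hE : Ext p K) : Subring K where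
  carrier := {a | Ur p a}
  mul_mem' := fun {a b} ha hb => ((hU p hp K hE).1 a b ha hb).2.1
  add_mem' := fun {a b} ha hb => ((hU p hp K hE).1 a b ha hb).1
  neg_mem' := fun {a} ha => ((hU p hp K hE).1 a a ha ha).2.2.1
  one_mem' := by
    have := (hU p hp K hE).2.2.1 1
    rwa [Int.cast_one] at this
  zero_mem' := by
    have := (hU p hp K hE).2.2.1 0
    rwa [Int.cast_zero] at this

theorem mem_urR (hU : URRStmt) {p : ℕ} (hp : p.Prime) [CharZero K] (hE : Ext p K) {a : K} :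
    a ∈ urR hU hp hE ↔ Ur p a := Iff.rfl

end

end Pool.Agent.ZP3.H51
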