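import Pool.Agent.ZP3.StmtsP
import Pool.Agent.Helper51_ZP3.Near

/-!
Squad ZP3, row BET: the value of an integral coordinate near infinity.
-/

set_option autoImplicit false

namespace Pool.Agent.ZP3.H51

open Polynomial Pool.Agent.ZPT Pool.Agent.ZP3

theorem exists_pow_card_le (s : Multiset ℝ) (h0 : ∀ x ∈ s, 0 ≤ x) (hs : s ≠ 0) :
    ∃ x ∈ s, x ^ (Multiset.card s) ≤ s.prod := by
  induction s using Multiset.induction with
  | empty => exact absurd rfl hs
  | cons a s ih =>
    have ha : 0 ≤ a := h0 a (Multiset.mem_cons_self a s)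
    have h0' : ∀ x ∈ s, 0 ≤ x := fun x hx => h0 x (Multiset.mem_cons_of_mem hx)
    by_cases hs0 : s = 0
    · subst hs0
      exact ⟨a, Multiset.mem_cons_self a 0, by simp⟩
    · obtain ⟨b, hb, hbp⟩ := ih h0' hs0
      have hb0 := h0' b hb
      have hpr : 0 ≤ s.prod := (pow_nonneg hb0 _).trans hbp
      rw [Multiset.prod_cons, Multiset.card_cons]
      rcases le_total a b with hab | hab
      · refine ⟨a, Multiset.mem_cons_self a s, ?_⟩
        rw [pow_succ']
        exact mul_le_mul_of_nonneg_left ((pow_le_pow_left₀ ha hab _).trans hbp) ha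
      · refine ⟨b, Multiset.mem_cons_of_mem hb, ?_⟩
        rw [pow_succ']
        exact mul_le_mul hab hbp (pow_nonneg hb0 _) ha

theorem bet (ura : URAStmt) : BETStmt := by
  classical
  intro G hG
  have hcl : IsAlgClosed Qb := (algebraicClosure.isAlgClosure ℚ ℂ).isAlgClosed
  obtain ⟨N, hN⟩ : ∃ N : ℕ, G.natDegree < N := ⟨G.natDegree + 1, Nat.lt_succ_self _⟩
  obtain ⟨D, hD⟩ : ∃ D : ℕ, D = G.support.sup fun i => (G.coeff i).natDegree := ⟨_, rfl⟩
  have hDle : ∀ i, (G.coeff i).natDegree ≤ D := by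
    intro i
    by_cases hi : i ∈ G.support
    · rw [hD]; exact Finset.le_sup (f := fun i => (G.coeff i).natDegree) hi
    · rw [notMem_support_iff.mp hi]; simp
  obtain ⟨i₀, hi₀, hi₀D⟩ : ∃ i ∈ G.support, D = (G.coeff i).natDegree := by
    rw [hD]
    exact Finset.exists_mem_eq_sup G.support (support_nonempty.mpr hG) _
  obtain ⟨f, hf⟩ : ∃ f : Qb[X], f = ∑ i ∈ Finset.range N, C ((G.coeff i).coeff D) * X ^ i :=
    ⟨_, rfl⟩
  have hfc : ∀ i, i < N → f.coeff i = (G.coeff i).coeff D := by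
    intro i hi
    rw [hf, finset_sum_coeff]
    simp only [coeff_C_mul_X_pow]
    rw [Finset.sum_eq_single i]
    · simp
    · intro j _ hj; rw [if_neg (Ne.symm hj)]
    · intro h; exact absurd (Finset.mem_range.mpr hi) h
  have hf0 : f ≠ 0 := by
    intro h
    have h1 := hfc i₀ (lt_of_le_of_lt (le_natDegree_of_mem_supp _ hi₀) hN)
    rw [h, coeff_zero, hi₀D] at h1
    have h2 : (G.coeff i₀).leadingCoeff = 0 := h1.symm
    rw [leadingCoeff_eq_zero] at h2
    exact (mem_support_iff.mp hi₀) h2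
  have hsp : f.Splits := IsAlgClosed.splits f
  obtain ⟨S, hS⟩ : ∃ S : Finset Qb, S = ((Finset.range N ×ˢ Finset.range (D + 1)).image
    fun x => (G.coeff x.1).coeff x.2) ∪ f.roots.toFinset ∪ {f.leadingCoeff} := ⟨_, rfl⟩
  obtain ⟨p₀, hp₀⟩ := ura S
  refine ⟨f.roots.toFinset, max 1 (Multiset.card f.roots), p₀, le_max_left _ _, ?_⟩
  intro p hp hpp K _ _ _ hE ι
  have hu := hp₀ p hp hpp K hE ι
  refine ⟨fun β hβ => (hu β (by rw [hS]; simp only [Finset.mem_union]; exact Or.inl (Or.inr hβ))).1,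
    fun x₂ x₃ hx₂ hx₃ hev => ?_⟩
  have hc1 : ‖ι f.leadingCoeff‖ = 1 :=
    (hu f.leadingCoeff (by rw [hS]; simp)).2 (leadingCoeff_ne_zero.mpr hf0)
  have hcoef : ∀ i j, i < N → j < D + 1 → ‖ι ((G.coeff i).coeff j)‖ ≤ 1 := by
    intro i j hi hj
    refine (hu _ ?_).1.1
    rw [hS]
    simp only [Finset.mem_union]
    refine Or.inl (Or.inl ?_)
    exact Finset.mem_image.mpr ⟨(i, j), by simp [hi, hj], rfl⟩
  -- the expansion in powers of x₂
  have hx0 : x₂ ≠ 0 := by intro h; rw [h, norm_zero] at hx₂; linarith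
  have hexp : evQ ι G x₂ x₃ = ∑ j ∈ Finset.range (D + 1),
      (∑ i ∈ Finset.range N, ι ((G.coeff i).coeff j) * x₃ ^ i) * x₂ ^ j := by
    unfold evQ
    rw [eval_eq_sum_range' (lt_of_le_of_lt (natDegree_map_le) hN)]
    simp only [coeff_map]
    have h1 : ∀ i, (eval₂RingHom ι x₂) (G.coeff i) =
        ∑ j ∈ Finset.range (D + 1), ι ((G.coeff i).coeff j) * x₂ ^ j := by
      intro i
      rw [coe_eval₂RingHom, eval₂_eq_sum_range' ι (Nat.lt_succ_of_le (hDle i))]
    simp only [h1, Finset.sum_mul]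
    rw [Finset.sum_comm]
    refine Finset.sum_congr rfl fun j _ => Finset.sum_congr rfl fun i _ => by ring
  have hfx : (f.map ι).eval x₃ = ∑ i ∈ Finset.range N, ι ((G.coeff i).coeff D) * x₃ ^ i := by
    rw [hf, Polynomial.map_sum, eval_finsetSum]
    refine Finset.sum_congr rfl fun i _ => ?_
    simp
  have hle : ∀ j, j < D + 1 → ‖∑ i ∈ Finset.range N, ι ((G.coeff i).coeff j) * x₃ ^ i‖ ≤ 1 := by
    intro j hj
    refine IsUltrametricDist.norm_sum_le_of_forall_le_of_nonneg zero_le_one fun i hi => ?_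
    rw [norm_mul, norm_pow]
    exact mul_le_one₀ (hcoef i j (Finset.mem_range.mp hi) hj) (pow_nonneg (norm_nonneg _) _)
      (pow_le_one₀ (norm_nonneg _) hx₃)
  have hfle : ‖(f.map ι).eval x₃‖ ≤ ‖x₂‖⁻¹ := by
    rw [hexp, Finset.sum_range_succ, ← hfx] at hev
    have h1 : (f.map ι).eval x₃ * x₂ ^ D = -∑ j ∈ Finset.range D,
        (∑ i ∈ Finset.range N, ι ((G.coeff i).coeff j) * x₃ ^ i) * x₂ ^ j := by
      rw [eq_neg_iff_add_eq_zero, add_comm]; exact hev
    rcases Nat.eq_zero_or_pos D with hD0 | hD0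
    · rw [hD0] at h1
      simp only [pow_zero, mul_one, Finset.range_zero, Finset.sum_empty, neg_zero] at h1
      rw [h1, norm_zero]; positivity
    · have h2 : ‖(f.map ι).eval x₃ * x₂ ^ D‖ ≤ ‖x₂‖ ^ (D - 1) := by
        rw [h1, norm_neg]
        refine IsUltrametricDist.norm_sum_le_of_forall_le_of_nonneg (by positivity) fun j hj => ?_
        have hjD := Finset.mem_range.mp hj
        rw [norm_mul, norm_pow]
        refine (mul_le_of_le_one_left (by positivity) (hle j (by omega))).trans ?_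
        exact pow_le_pow_right₀ hx₂.le (by omega)
      rw [norm_mul, norm_pow] at h2
      have h3 : ‖x₂‖ ^ D = ‖x₂‖ ^ (D - 1) * ‖x₂‖ := by
        rw [← pow_succ]; congr 1; omega
      have h4 : 0 < ‖x₂‖ ^ (D - 1) := by positivity
      rw [h3] at h2
      have h5 : ‖(f.map ι).eval x₃‖ * ‖x₂‖ ≤ 1 := by
        by_contra hcon
        push Not at hcon
        have : ‖x₂‖ ^ (D - 1) * 1 < ‖x₂‖ ^ (D - 1) * (‖(f.map ι).eval x₃‖ * ‖x₂‖) :=
          mul_lt_mul_of_pos_left hcon h4
        linarith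
      rw [← one_div, le_div_iff₀ (by linarith)]
      exact h5
  -- product over the roots
  have hprod : ‖(f.map ι).eval x₃‖ = (f.roots.map fun β => ‖x₃ - ι β‖).prod := by
    have h1 : f.map ι = C (ι f.leadingCoeff) * (f.roots.map fun β => X - C (ι β)).prod := by
      conv_lhs => rw [hsp.eq_prod_roots]
      rw [Polynomial.map_mul, map_C, Polynomial.map_multiset_prod, Multiset.map_map]
      congr 2
      refine Multiset.map_congr rfl fun β _ => ?_
      simp
    rw [h1, eval_mul, eval_C, norm_mul, hc1, one_mul, eval_multiset_prod, Multiset.map_map]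
    have h2 : ∀ s : Multiset Qb, ‖(s.map ((fun p : K[X] => p.eval x₃) ∘
        fun β => X - C (ι β))).prod‖ = (s.map fun β => ‖x₃ - ι β‖).prod := by
      intro s
      induction s using Multiset.induction with
      | empty => simp
      | cons a s ih =>
        rw [Multiset.map_cons, Multiset.prod_cons, norm_mul, ih, Multiset.map_cons,
          Multiset.prod_cons]
        simp
    exact h2 f.roots
  rw [hprod] at hfle
  have hx21 : ‖x₂‖⁻¹ < 1 := inv_lt_one_of_one_lt₀ hx₂
  have hr0 : f.roots ≠ 0 := by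
    intro h
    rw [h, Multiset.map_zero, Multiset.prod_zero] at hfle
    linarith
  obtain ⟨y, hy, hyp⟩ := exists_pow_card_le (f.roots.map fun β => ‖x₃ - ι β‖)
    (fun x hx => by
      obtain ⟨β, _, rfl⟩ := Multiset.mem_map.mp hx
      exact norm_nonneg _) (fun h => hr0 (Multiset.map_eq_zero.mp h))
  obtain ⟨β, hβ, rfl⟩ := Multiset.mem_map.mp hy
  rw [Multiset.card_map] at hyp
  have hcard : 1 ≤ Multiset.card f.roots := Multiset.card_pos.mpr hr0
  refine ⟨β, Multiset.mem_toFinset.mpr hβ, ?_⟩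
  rw [max_eq_right hcard]
  exact hyp.trans hfle

end Pool.Agent.ZP3.H51
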