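import Pool.Agent.Helper51_ZP3.PolyL

/-!
Squad ZP3, row VX1: the vertex in the first pattern.
-/

set_option autoImplicit false

namespace Pool.Agent.ZP3.H51

open Polynomial Pool.Agent.ZPT Pool.Agent.ZP3

section
variable {K : Type} [NormedField K] [IsUltrametricDist K]

theorem one_add_pow_near {z : K} (hz : ‖z‖ ≤ 1) (n : ℕ) :
    ‖(1 + z) ^ n - (1 + n * z)‖ ≤ ‖z‖ ^ 2 := by
  induction n with
  | zero => simp
  | succ n ih =>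
    have h : (1 + z) ^ (n + 1) - (1 + ((n + 1 : ℕ) : K) * z) =
        (1 + z) * ((1 + z) ^ n - (1 + n * z)) + n * z ^ 2 := by
      push_cast; ring
    rw [h]
    refine add_le' ?_ ?_
    · rw [norm_mul]
      have h1 : ‖1 + z‖ ≤ 1 := add_le' (by rw [norm_one]) hz
      nlinarith [norm_nonneg ((1 + z) ^ n - (1 + n * z)), norm_nonneg (1 + z)]
    · rw [norm_mul, norm_pow]
      have h1 : ‖(n : K)‖ ≤ 1 := IsUltrametricDist.norm_natCast_le_one K n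
      nlinarith [sq_nonneg ‖z‖]

/-- The algebraic core of VX1: from the approximate equation to the form required by RAY. -/
theorem core1 {p : ℕ} [CharZero K] (hp0 : 0 < p) (hnp : ‖(p : K)‖ = (p : ℝ)⁻¹) {η : ℝ}
    (hη1 : η < 1) (hpη : (p : ℝ)⁻¹ * (p : ℝ)⁻¹ ≤ η)
    {b l m τe κ X Y g₂ u : K} (hb : ‖b‖ = 1) (hl : ‖l‖ ≤ 1)
    (hm : ‖m - b * (1 + p * l)‖ ≤ η) (hτ : ‖τe‖ = 1) (hκ : ‖κ‖ = 1) (hX : X = m / (κ * τe))
    (hY : τe * (κ * Y - g₂ + p * u) = 1) (hg : ‖g₂‖ = 1) :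
    ‖-(κ * b⁻¹ * g₂⁻¹) * X + κ * g₂⁻¹ * Y - 1 - (p : K) * (-(u * g₂⁻¹) +
      -(κ * b⁻¹ * g₂⁻¹) * l * X)‖ ≤ η ∧ ‖1 / τe - κ * b⁻¹ * X‖ < 1 := by
  have hb0 : b ≠ 0 := by intro h; rw [h, norm_zero] at hb; norm_num at hb
  have hτ0 : τe ≠ 0 := by intro h; rw [h, norm_zero] at hτ; norm_num at hτ
  have hκ0 : κ ≠ 0 := by intro h; rw [h, norm_zero] at hκ; norm_num at hκ
  have hg0 : g₂ ≠ 0 := by intro h; rw [h, norm_zero] at hg; norm_num at hg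
  have hpr : (0 : ℝ) < p := by exact_mod_cast hp0
  have hp1 : (p : ℝ)⁻¹ ≤ 1 := by
    rw [inv_le_one₀ hpr]; exact_mod_cast hp0
  have hppos : (0 : ℝ) < (p : ℝ)⁻¹ := by positivity
  have hpl : ‖(p : K) * l‖ ≤ (p : ℝ)⁻¹ := by rw [norm_mul, hnp]; nlinarith [norm_nonneg l]
  have hbi : ‖b⁻¹‖ = 1 := by rw [norm_inv, hb, inv_one]
  have hτi : ‖τe⁻¹‖ = 1 := by rw [norm_inv, hτ, inv_one]
  have hgi : ‖g₂⁻¹‖ = 1 := by rw [norm_inv, hg, inv_one]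
  have hη0 : 0 ≤ η := (norm_nonneg _).trans hm
  have h1pl : ‖1 - (p : K) * l‖ ≤ 1 := sub_le' (by rw [norm_one]) (hpl.trans hp1)
  have key : ‖1 - b⁻¹ * m * (1 - p * l)‖ ≤ η := by
    have h1 : 1 - b⁻¹ * m * (1 - p * l) =
        -(b⁻¹ * (m - b * (1 + p * l)) * (1 - p * l)) + (p * l) * (p * l) := by
      field_simp
      ring
    rw [h1]
    refine add_le' ?_ ?_
    · rw [norm_neg, norm_mul, norm_mul, hbi, one_mul]
      calc ‖m - b * (1 + p * l)‖ * ‖1 - (p : K) * l‖ ≤ η * 1 :=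
            mul_le_mul hm h1pl (norm_nonneg _) hη0
        _ = η := mul_one η
    · rw [norm_mul]
      exact (mul_le_mul hpl hpl (norm_nonneg _) hppos.le).trans hpη
  refine ⟨?_, ?_⟩
  · have hY' : κ * Y = τe⁻¹ + g₂ - p * u := by
      have h2 : κ * Y - g₂ + p * u = τe⁻¹ := eq_inv_of_mul_eq_one_right hY
      rw [← h2]; ring
    have h3 : -(κ * b⁻¹ * g₂⁻¹) * X + κ * g₂⁻¹ * Y - 1 - (p : K) * (-(u * g₂⁻¹) +
        -(κ * b⁻¹ * g₂⁻¹) * l * X) = g₂⁻¹ * (τe⁻¹ * (1 - b⁻¹ * m * (1 - p * l))) := by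
      have h4 : κ * g₂⁻¹ * Y = g₂⁻¹ * (κ * Y) := by ring
      rw [h4, hY', hX]
      field_simp
      ring
    rw [h3, norm_mul, norm_mul, hgi, hτi, one_mul, one_mul]
    exact key
  · have h5 : 1 / τe - κ * b⁻¹ * X =
        τe⁻¹ * (-(b⁻¹ * (m - b * (1 + p * l))) - p * l) := by
      rw [hX]
      field_simp
      ring
    rw [h5, norm_mul, hτi, one_mul]
    have h6 : (p : ℝ)⁻¹ < 1 ∨ (p : ℝ)⁻¹ = 1 := lt_or_eq_of_le hp1
    rcases h6 with h6 | h6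
    · refine lt_of_le_of_lt (sub_le' (c := max η (p : ℝ)⁻¹) ?_ ?_) (max_lt hη1 h6)
      · rw [norm_neg, norm_mul, hbi, one_mul]; exact hm.trans (le_max_left _ _)
      · exact hpl.trans (le_max_right _ _)
    · rw [h6] at hpη; linarith

end

theorem vx1 (hVR2 : VR2Stmt) (hSEP : SEPStmt) (hRAY : RAYStmt) (hTAT : TATStmt)
    (hMTH : MTHStmt) (hURR : URRStmt) (hURT : URTStmt) : VX1Stmt := by
  intro U hU p hp h5 K _ _ _ _ _ hE e r A g₁ g₂ g₃ β ε he her hrp hA hA0 hg1 hg2 hg3 hβ hε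
  obtain ⟨π, hπ⟩ := IsAlgClosed.exists_pow_nat_eq (p : K) (n := e) (by omega)
  have hp0 : (0 : ℝ) < p := by exact_mod_cast hp.pos
  have hp1 : (1 : ℝ) < p := by exact_mod_cast hp.one_lt
  have hnp := norm_p hp hE
  have hpi0 : (0 : ℝ) < (p : ℝ)⁻¹ := by positivity
  have hpi1 : (p : ℝ)⁻¹ < 1 := inv_lt_one_of_one_lt₀ hp1
  have hpK : (p : K) ≠ 0 := by exact_mod_cast hp.ne_zero
  have hπn : ‖π‖ ^ e = (p : ℝ)⁻¹ := by rw [← norm_pow, hπ, hnp]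
  have hπ1 : ‖π‖ < 1 := by
    by_contra h
    push Not at h
    have := one_le_pow₀ h (n := e)
    linarith
  have hπ0 : π ≠ 0 := by
    rintro rfl
    rw [zero_pow (by omega)] at hπ
    exact hpK hπ.symm
  obtain ⟨δ, hδ⟩ : ∃ δ : ℝ, δ = max ε ‖π‖ := ⟨_, rfl⟩
  have hδ1 : δ < 1 := by rw [hδ]; exact max_lt hε hπ1
  have hπδ : ‖π‖ ≤ δ := by rw [hδ]; exact le_max_right _ _
  have hεδ : ε ≤ δ := by rw [hδ]; exact le_max_left _ _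
  have hδ0 : 0 ≤ δ := (norm_nonneg π).trans hπδ
  have hpδ : (p : ℝ)⁻¹ ≤ δ := by
    rw [← hπn]
    refine le_trans ?_ hπδ
    exact pow_le_of_le_one (norm_nonneg π) hπ1.le (by omega)
  obtain ⟨η, hη⟩ : ∃ η : ℝ, η = δ * (p : ℝ)⁻¹ := ⟨_, rfl⟩
  have hη0 : 0 ≤ η := by rw [hη]; positivity
  have hηp : η ≤ (p : ℝ)⁻¹ := by rw [hη]; nlinarith
  have hη1 : η < 1 := lt_of_le_of_lt hηp hpi1
  have hpη : (p : ℝ)⁻¹ * (p : ℝ)⁻¹ ≤ η := by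
    rw [hη]; exact mul_le_mul_of_nonneg_right hpδ hpi0.le
  have hπη : ‖π‖ ^ (e + 1) ≤ η := by
    rw [pow_succ, hπn, hη, mul_comm]; exact mul_le_mul_of_nonneg_right hπδ hpi0.le
  have hpe : ¬ p ∣ e := fun h => by have := Nat.le_of_dvd (by omega) h; omega
  have hpr : ¬ p ∣ r := fun h => by have := Nat.le_of_dvd (by omega) h; omega
  obtain ⟨hring, hrat, hint, hsmall, hinv⟩ := hURR p hp K hE
  obtain ⟨hTu, hRt⟩ := hURT p hp K hE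
  obtain ⟨R, hR⟩ : ∃ R : Subring K, ∀ a : K, a ∈ R ↔ Ur p a := ⟨urR hURR hp hE, fun a => Iff.rfl⟩
  obtain ⟨u, hu⟩ : ∃ u : K, u = ((PowerSeries.coeff 1 U : ℚ) : K) := ⟨_, rfl⟩
  have hT := hTAT U hU p hp h5 K hE
  rw [← hu] at hT
  obtain ⟨hu1, hTt⟩ := hT
  have huR : u ∈ R := by
    rw [hR, hu]
    refine hrat _ ?_
    have h1 := hE (PowerSeries.coeff 1 U)
    rw [← hu] at h1
    rw [h1] at hu1
    exact_mod_cast hu1
  have hnR : ∀ n : ℕ, (n : K) ∈ R := fun n => natCast_mem R n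
  have hUu : ∀ a : K, Uu p a ↔ a ∈ R ∧ ‖a‖ = 1 := fun a => by rw [hR]; rfl
  have hU1 : ∀ a : K, a ∈ R → ‖a‖ ≤ 1 := fun a ha => ((hR a).mp ha).1
  have hUi : ∀ a : K, a ∈ R → ‖a‖ = 1 → a⁻¹ ∈ R ∧ ‖a⁻¹‖ = 1 := fun a h1 h2 =>
    (hUu _).mp (hinv a ((hUu a).mpr ⟨h1, h2⟩))
  have hAR : ∀ n, A n ∈ R := fun n => (hR _).mpr (hA n)
  obtain ⟨hg1R, hg1n⟩ := (hUu _).mp hg1
  obtain ⟨hg2R, hg2n⟩ := (hUu _).mp hg2
  obtain ⟨hg3R, hg3n⟩ := (hUu _).mp hg3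
  have hβR : β ∈ R := (hR _).mpr hβ
  -- κ
  obtain ⟨κ, hκ⟩ : ∃ κ : K, κ = g₃ + p * (β - u) := ⟨_, rfl⟩
  have hκR : κ ∈ R := by
    rw [hκ]; exact R.add_mem hg3R (R.mul_mem (hnR p) (R.sub_mem hβR huR))
  have hκn : ‖κ‖ = 1 := by
    refine norm_one_of_near hg3n (lt_of_le_of_lt (?_ : _ ≤ (p : ℝ)⁻¹) hpi1)
    rw [hκ, add_sub_cancel_left, norm_mul, hnp]
    exact mul_le_of_le_one_right hpi0.le (hU1 _ (R.sub_mem hβR huR))
  -- b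
  obtain ⟨b, hb⟩ := IsAlgClosed.exists_pow_nat_eq (A 0 ^ e) (n := r) (by omega)
  have hA0e : ‖A 0 ^ e‖ = 1 := by rw [norm_pow, hA0, one_pow]
  have hbn : ‖b‖ = 1 := by
    have h1 : ‖b‖ ^ r = 1 := by rw [← norm_pow, hb, hA0e]
    exact (pow_eq_one_iff_of_nonneg (norm_nonneg b) (by omega)).mp h1
  have hbR : b ∈ R := by
    have h1 := hRt b r (by omega) hpr hbn (by rw [hb, ← hR]; exact R.pow_mem (hAR 0) e)
    exact ((hUu b).mp h1).1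
  obtain ⟨g, hg⟩ : ∃ g : K, g = g₁ - p * u := ⟨_, rfl⟩
  have hgR : g ∈ R := by rw [hg]; exact R.sub_mem hg1R (R.mul_mem (hnR p) huR)
  obtain ⟨L, hL, hLs⟩ := polyL R hU1 e r he her A hAR g hgR
  have hrn : ‖(r : K)‖ = 1 := norm_nat_eq_one hp hE hpr
  have hr0 : (r : K) ≠ 0 := by intro h; rw [h, norm_zero] at hrn; norm_num at hrn
  have hA00 : A 0 ^ e ≠ 0 := by intro h; rw [h, norm_zero] at hA0e; norm_num at hA0e
  obtain ⟨hriR, hrin⟩ := hUi _ (hnR r) hrn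
  obtain ⟨hAiR, hAin⟩ := hUi _ (R.pow_mem (hAR 0) e) hA0e
  obtain ⟨hbiR, hbin⟩ := hUi _ hbR hbn
  obtain ⟨hgiR, hgin⟩ := hUi _ hg2R hg2n
  obtain ⟨a, ha⟩ : ∃ a : K, a = -(κ * b⁻¹ * g₂⁻¹) := ⟨_, rfl⟩
  have haR : a ∈ R := by rw [ha]; exact R.neg_mem (R.mul_mem (R.mul_mem hκR hbiR) hgiR)
  have han : ‖a‖ = 1 := by
    rw [ha, norm_neg, norm_mul, norm_mul, hκn, hbin, hgin]; norm_num
  obtain ⟨c, hc⟩ : ∃ c : K, c = a * ((r : K)⁻¹ * (A 0 ^ e)⁻¹) := ⟨_, rfl⟩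
  have hcR : c ∈ R := by rw [hc]; exact R.mul_mem haR (R.mul_mem hriR hAiR)
  obtain ⟨G, hG⟩ : ∃ G : K[X][X], G = C (C (-(u * g₂⁻¹))) + C (C c * L) * X := ⟨_, rfl⟩
  have hGc : ∀ i j, ‖(G.coeff i).coeff j‖ ≤ 1 := by
    intro i j
    have h1 : ∀ k, ‖(C c * L).coeff k‖ ≤ 1 := fun k => by
      rw [coeff_C_mul]; exact hU1 _ (R.mul_mem hcR (hL k))
    rcases i with _ | _ | i
    · rw [hG]
      simp only [coeff_add, coeff_C_zero, mul_coeff_zero, coeff_X_zero, mul_zero, add_zero]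
      rw [coeff_C]
      split_ifs
      · exact hU1 _ (R.neg_mem (R.mul_mem huR hgiR))
      · simp
    · rw [hG, coeff_add, zero_add, coeff_C_succ, zero_add, coeff_mul_X, coeff_C_zero]
      exact h1 j
    · rw [hG, coeff_add, coeff_C_succ, zero_add, coeff_mul_X, coeff_C_succ]
      simp
  obtain ⟨M, hM1, hM⟩ := hRAY p hp h5 K hE e a (κ * g₂⁻¹) (κ * b⁻¹) G δ he hpe
    ((hUu _).mpr ⟨haR, han⟩)
    ((hUu _).mpr ⟨R.mul_mem hκR hgiR, by rw [norm_mul, hκn, hgin, one_mul]⟩)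
    (by rw [norm_mul, hκn, hbin, one_mul]) hGc hδ1
  refine ⟨M, hM1, fun t x₃ q₁ q₂ q₃ ξ h hxβ hte hq2 hT2 hTξ hrel => ?_⟩
  obtain ⟨hκ3, τ₀, hτ0, hτn, hτe⟩ := hVR2 U hU p hp h5 K hE e r A g₁ g₂ g₃ β π δ he hpe hA
    hg2 hg3 hβ hπ hπδ hδ1 t x₃ q₁ q₂ q₃ h hte hq2 hT2 (hxβ.trans hεδ)
  rw [← hu, ← hκ, ← hη] at hκ3
  rw [← hη] at hτn
  rw [← hu, ← hκ] at hτe
  obtain ⟨hτ0R, hτ0n⟩ := (hUu _).mp hτ0
  have hξn : ‖ξ‖ = 1 := (hTu ξ hTξ).2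
  have hξR : ξ ∈ R := ((hUu _).mp (hTu ξ hTξ)).1
  have ht0 : t ≠ 0 := norm_pos_iff.mp h.t0
  have hq10 : q₁ ≠ 0 := norm_pos_iff.mp h.q10
  have hq30 : q₃ ≠ 0 := norm_pos_iff.mp h.q30
  have hτ00 : τ₀ ≠ 0 := by intro h; rw [h, norm_zero] at hτ0n; norm_num at hτ0n
  have hpq3 : ‖(p : K) / q₃‖ = 1 := norm_one_of_near hκn (lt_of_le_of_lt hκ3 hη1)
  have hq3n : ‖q₃‖ = (p : ℝ)⁻¹ := by
    rw [norm_div, hnp, div_eq_one_iff_eq (norm_ne_zero_iff.mpr hq30)] at hpq3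
    exact hpq3.symm
  have hq1e : ‖q₁‖ ^ e = (p : ℝ)⁻¹ ^ r := by
    have h1 := congrArg norm hrel
    rw [norm_pow, norm_mul, norm_pow, norm_pow, hξn, one_pow, one_mul, hq3n] at h1
    exact h1.symm
  have htq : ‖t‖ ^ r = ‖q₁‖ := by
    have h1 : (‖t‖ ^ r) ^ e = ‖q₁‖ ^ e := by rw [hq1e, ← hte, ← pow_mul, ← pow_mul, mul_comm]
    exact (pow_left_inj₀ (by positivity) (norm_nonneg _) (by omega)).mp h1
  have htπ : ‖t‖ = ‖π‖ := by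
    have h1 : ‖t‖ ^ e = ‖π‖ ^ e := by rw [hte, hπn]
    exact (pow_left_inj₀ (norm_nonneg _) (norm_nonneg _) (by omega)).mp h1
  have hq1p : ‖q₁‖ ≤ (p : ℝ)⁻¹ := by
    by_contra hcon
    push Not at hcon
    have h1 : (p : ℝ)⁻¹ ^ e < ‖q₁‖ ^ e := pow_lt_pow_left₀ hcon hpi0.le (by omega)
    rw [hq1e] at h1
    exact absurd h1 (not_lt.mpr (pow_le_pow_of_le_one hpi0.le hpi1.le her.le))
  -- the normalized parameter
  obtain ⟨τ, hτ⟩ : ∃ τ : K, τ = t / π := ⟨_, rfl⟩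
  rw [← hτ] at hτn
  have htτ : t = π * τ := by rw [hτ]; field_simp
  have hτnn : ‖τ‖ = 1 := by
    rw [hτ, norm_div, htπ, div_self (norm_ne_zero_iff.mpr hπ0)]
  obtain ⟨T1, hT1⟩ : ∃ T1 : K, T1 = t ^ r / q₁ := ⟨_, rfl⟩
  have hT1n : ‖T1‖ = 1 := by
    rw [hT1, norm_div, norm_pow, htq, div_self (norm_ne_zero_iff.mpr hq10)]
  have hS := trunc A (fun n => hU1 _ (hAR n)) t h.t1 (e + 1)
  have hTq := (hTt q₁ h.q10 h.q11).2
  rw [h.e1] at hTq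
  have hW1 : ‖T1 - ((∑ n ∈ Finset.range (e + 1), A n * (π * τ) ^ n) +
      g * π ^ (r - e) * τ ^ r)‖ ≤ η := by
    have h1 : T1 - ((∑' n : ℕ, A n * t ^ n) + g * π ^ (r - e) * τ ^ r) =
        t ^ r * (q₁⁻¹ - ((∑' n : ℕ, A n * t ^ n) / t ^ r + g₁ / p - u)) := by
      have h2 : π ^ (r - e) * τ ^ r = t ^ r / p := by
        have h3 : π ^ r = π ^ (r - e) * (p : K) := by
          rw [← hπ, ← pow_add]; congr 1; omega
        rw [htτ, mul_pow, h3]; field_simp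
      rw [mul_assoc g, h2, hT1, hg]
      field_simp
      ring
    have h4 : ‖T1 - ((∑' n : ℕ, A n * t ^ n) + g * π ^ (r - e) * τ ^ r)‖ ≤ η := by
      rw [h1, norm_mul, norm_pow, htq]
      refine le_trans (mul_le_mul hq1p (hTq.trans hq1p) (norm_nonneg _) hpi0.le) hpη
    refine tri h4 ?_
    rw [add_sub_add_right_eq_sub, ← htτ]
    refine hS.trans ?_
    rw [htπ]; exact hπη
  have hW2 : ‖((∑ n ∈ Finset.range (e + 1), A n * (π * τ) ^ n) + g * π ^ (r - e) * τ ^ r) -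
      ((∑ n ∈ Finset.range (e + 1), A n * (π * τ₀) ^ n) + g * π ^ (r - e) * τ₀ ^ r)‖ ≤ η := by
    rw [add_sub_add_comm]
    have hπτ : ‖π * τ - π * τ₀‖ ≤ η := by
      rw [← mul_sub, norm_mul]
      exact (mul_le_of_le_one_left (norm_nonneg _) hπ1.le).trans hτn
    refine add_le' ?_ ?_
    · rw [← Finset.sum_sub_distrib]
      refine IsUltrametricDist.norm_sum_le_of_forall_le_of_nonneg hη0 fun n _ => ?_
      rw [← mul_sub, norm_mul]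
      have h1 : ‖(π * τ) ^ n - (π * τ₀) ^ n‖ ≤ η := by
        refine (pow_near ?_ ?_ n).trans hπτ
        · rw [norm_mul, hτnn, mul_one]; exact hπ1.le
        · rw [norm_mul, hτ0n, mul_one]; exact hπ1.le
      exact (mul_le_of_le_one_left (norm_nonneg _) (hU1 _ (hAR n))).trans h1
    · rw [← mul_sub, norm_mul]
      have h1 : ‖τ ^ r - τ₀ ^ r‖ ≤ η := (pow_near hτnn.le hτ0n.le r).trans hτn
      have h2 : ‖g * π ^ (r - e)‖ ≤ 1 := by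
        rw [norm_mul, norm_pow]
        have h3 : ‖π‖ ^ (r - e) ≤ 1 := pow_le_one₀ (norm_nonneg π) hπ1.le
        exact mul_le_one₀ (hU1 _ hgR) (pow_nonneg (norm_nonneg π) (r - e)) h3
      exact (mul_le_of_le_one_left (norm_nonneg _) h2).trans h1
  obtain ⟨W, hW⟩ : ∃ W : K, W = (∑ n ∈ Finset.range (e + 1), A n * (π * τ₀) ^ n) +
    g * π ^ (r - e) * τ₀ ^ r := ⟨_, rfl⟩
  rw [← hW] at hW2
  have hTW : ‖T1 - W‖ ≤ η := tri hW1 hW2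
  have hWn : ‖W‖ = 1 := by
    refine norm_one_of_near hT1n (lt_of_le_of_lt ?_ hη1)
    rw [norm_sub_rev]; exact hTW
  have hTWe : ‖T1 ^ e - W ^ e‖ ≤ η := (pow_near hT1n.le hWn.le e).trans hTW
  obtain ⟨Z0, hZ0⟩ : ∃ Z0 : K, Z0 = ξ * κ * τ₀ ^ e := ⟨_, rfl⟩
  have hZ0R : Z0 ∈ R := by
    rw [hZ0]; exact R.mul_mem (R.mul_mem hξR hκR) (R.pow_mem hτ0R e)
  have hτee : τ ^ e = t ^ e / p := by rw [hτ, div_pow, hπ]
  have hT1Z : T1 ^ e = (ξ * ((p : K) / q₃) * τ ^ e) ^ r := by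
    have h1 : q₁ ^ e ≠ 0 := pow_ne_zero _ hq10
    have h2 : q₃ ^ r ≠ 0 := pow_ne_zero _ hq30
    rw [hτee, hT1, div_pow, mul_pow, mul_pow, div_pow, div_pow, div_eq_iff h1]
    have h3 : ξ ^ r * (↑p ^ r / q₃ ^ r) * ((t ^ e) ^ r / (p : K) ^ r) * q₁ ^ e =
        (ξ ^ r * q₁ ^ e) * ((t ^ e) ^ r / q₃ ^ r) := by
      have h4 : (p : K) ^ r ≠ 0 := pow_ne_zero _ hpK
      field_simp
    rw [h3, ← hrel, mul_div_cancel₀ _ h2, ← pow_mul, ← pow_mul, mul_comm]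
  have hZ : ‖ξ * ((p : K) / q₃) * τ ^ e - Z0‖ ≤ η := by
    rw [hZ0]
    refine mul_near ?_ ?_ (mul_near hξn.le hκn.le (by rw [sub_self, norm_zero]; exact hη0) hκ3)
      ((pow_near hτnn.le hτ0n.le e).trans hτn)
    · rw [norm_mul, hξn, hpq3, one_mul]
    · rw [norm_pow, hτ0n, one_pow]
  have hZ0n : ‖Z0‖ = 1 := by
    rw [hZ0, norm_mul, norm_mul, norm_pow, hξn, hκn, hτ0n]; norm_num
  have hZn : ‖ξ * ((p : K) / q₃) * τ ^ e‖ = 1 := by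
    rw [norm_mul, norm_mul, norm_pow, hξn, hpq3, hτnn]; norm_num
  have hZr : ‖T1 ^ e - Z0 ^ r‖ ≤ η := by
    rw [hT1Z]; exact (pow_near hZn.le hZ0n.le r).trans hZ
  obtain ⟨Ls, hLsR, hLse, hLsπ⟩ := hLs τ₀ hτ0R
  have hWe := (hLsπ π hπ1.le).trans hπη
  rw [← hW] at hWe
  have hZW : ‖Z0 ^ r - (A 0 ^ e + ∑ i ∈ Finset.Icc 1 e, π ^ i * Ls i)‖ ≤ η := by
    refine tri (y := T1 ^ e) ?_ (tri hTWe hWe)
    rw [norm_sub_rev]; exact hZr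
  have hsep := hSEP p hp K hE e π (Z0 ^ r - A 0 ^ e) Ls δ he hπ
    ((hR _).mp (R.sub_mem (R.pow_mem hZ0R r) (R.pow_mem (hAR 0) e)))
    (fun i => (hR _).mp (hLsR i)) hπδ hδ1 (by
      rw [sub_sub, ← hη]; exact hZW)
  rw [← hη] at hsep
  obtain ⟨l, hl⟩ : ∃ l : K, l = Ls e * ((r : K)⁻¹ * (A 0 ^ e)⁻¹) := ⟨_, rfl⟩
  have hlR : l ∈ R := by rw [hl]; exact R.mul_mem (hLsR e) (R.mul_mem hriR hAiR)
  have hl1 := hU1 _ hlR
  have hpl : ‖(p : K) * l‖ ≤ (p : ℝ)⁻¹ := by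
    rw [norm_mul, hnp]; exact mul_le_of_le_one_right hpi0.le hl1
  obtain ⟨y, hy⟩ : ∃ y : K, y = b * (1 + p * l) := ⟨_, rfl⟩
  have hyn : ‖y‖ = 1 := by
    rw [hy, norm_mul, hbn, one_mul]
    refine norm_one_of_near (y := 1) norm_one ?_
    rw [add_sub_cancel_left]; exact lt_of_le_of_lt hpl hpi1
  have hyr : ‖y ^ r - (A 0 ^ e + p * Ls e)‖ ≤ η := by
    have h1 : A 0 ^ e + p * Ls e = A 0 ^ e * (1 + r * (p * l)) := by
      rw [hl]; field_simp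
    rw [hy, mul_pow, hb, h1, ← mul_sub, norm_mul, hA0e, one_mul]
    refine (one_add_pow_near (hpl.trans hpi1.le) r).trans ?_
    rw [pow_two]
    exact (mul_le_mul hpl hpl (norm_nonneg _) hpi0.le).trans hpη
  have hZy : ‖Z0 ^ r - y ^ r‖ ≤ η := by
    refine tri (y := A 0 ^ e + p * Ls e) ?_ ?_
    · rw [← sub_sub]; exact hsep
    · rw [norm_sub_rev]; exact hyr
  have hy0 : y ≠ 0 := by intro h; rw [h, norm_zero] at hyn; norm_num at hyn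
  obtain ⟨m, hmr, hmy⟩ := hMTH p hp K hE r (Z0 ^ r) y η (by omega) hpr hy0 hη1 (by
    rw [norm_pow y, hyn, one_pow, mul_one]; exact hZy)
  rw [hyn, mul_one] at hmy
  have hτen : ‖τ₀ ^ e‖ = 1 := by rw [norm_pow, hτ0n, one_pow]
  have hκτ : κ * τ₀ ^ e ≠ 0 := by
    intro h1
    have h2 : ‖κ * τ₀ ^ e‖ = 1 := by rw [norm_mul, hκn, hτen, one_mul]
    rw [h1, norm_zero] at h2; norm_num at h2
  obtain ⟨X0, hX0⟩ : ∃ X0 : K, X0 = m / (κ * τ₀ ^ e) := ⟨_, rfl⟩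
  have hX0r : X0 ^ r = ξ ^ r := by
    rw [hX0, div_pow, hmr, hZ0, mul_assoc, mul_pow, mul_div_assoc,
      div_self (pow_ne_zero _ hκτ), mul_one]
  have hX0T : Tame p X0 := by
    obtain ⟨M0, h1, h2, h3⟩ := hTξ
    refine ⟨r * M0, Nat.mul_pos (by omega) h1, ?_, ?_⟩
    · intro h4
      rcases (Nat.Prime.dvd_mul hp).mp h4 with h4 | h4
      · exact hpr h4
      · exact h2 h4
    · rw [pow_mul, hX0r, ← pow_mul, mul_comm, pow_mul, h3, one_pow]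
  obtain ⟨hfin1, hfin2⟩ := core1 (g₂ := g₂) (u := u) (Y := q₃ / q₂) hp.pos hnp hη1 hpη hbn hl1
    (hy ▸ hmy) hτen hκn hX0 hτe hg2n
  have hGev : (G.map (Polynomial.evalRingHom τ₀)).eval X0 =
      -(u * g₂⁻¹) + -(κ * b⁻¹ * g₂⁻¹) * l * X0 := by
    rw [hG]
    simp only [Polynomial.map_add, Polynomial.map_mul, map_C, map_X, eval_add, eval_mul, eval_C,
      eval_X, coe_evalRingHom, map_mul]
    rw [← hLse, hc, hl, ha]
    ring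
  have hXM := hM X0 (q₃ / q₂) τ₀ hX0T hT2 hτ0n hfin2 (by
    rw [hGev, ha, ← hη]; exact hfin1)
  have h6 : (q₃ ^ r) ^ M = q₁ ^ (e * M) := by
    rw [hrel, mul_pow, ← hX0r, ← pow_mul, mul_comm r M, pow_mul, hXM, one_pow, one_mul, ← pow_mul]
  rw [← h6, ← pow_mul]

end Pool.Agent.ZP3.H51
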