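import Pool.Agent.ZP3.StmtsP
import Pool.Agent.Helper51_ZPT.Asm
import Pool.Agent.Helper76_ZPT.MP
import Pool.Agent.Helper92_ZPT.ND
import Pool.Agent.Helper51_ZP3.VX1
import Pool.Agent.Helper51_ZP3.BET
import Pool.Agent.Helper17_ZP3.BDC
import Pool.Agent.Helper60_ZP3.URR
import Pool.Agent.Helper60_ZP3.WLM
import Pool.Agent.Helper56_ZP3.URT
import Pool.Agent.Helper56_ZP3.URA
import Pool.Agent.Helper10_ZP3.RES
import Pool.Agent.Helper10_ZP3.VR2
import Pool.Agent.Helper32_ZP3.THB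
import Pool.Agent.Helper32_ZP3.SEP
import Pool.Agent.Helper82_ZP3.SPL
import Pool.Agent.Helper33_ZP3.Wtm
import Pool.Agent.Helper48_ZP3.ROU
import Pool.Agent.Helper48_ZP3.ZKL
import Pool.Agent.Helper83_ZP3.LVV
import Pool.Agent.Helper67_ZP3.DEP
import Pool.Agent.Helper28_ZP3.TTL
import Pool.Agent.Helper39_ZP3.TAT
import Pool.Agent.Helper39_ZP3.MTH
import Pool.Agent.Helper69_ZP3.LP1
import Pool.Agent.Helper77_ZP3.LP2
import Pool.Agent.Helper20_ZP3.GNR
import Pool.Agent.Helper13_ZP3.RAY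
import Pool.Agent.Helper13_ZP3.F3A
import Pool.Agent.Helper18_ZP3.VX2
import Pool.Agent.Helper15_ZP3.LOC3
import Pool.Agent.Helper21_ZP3.HEN
import Pool.Agent.Helper23_ZP3.FGS
import Pool.Agent.Helper23_ZP3.NTP
import Pool.Agent.Helper19_ZP3.PUF
import Pool.Agent.Helper65_ZP3.PUM
import Pool.Agent.Helper65_ZP3.PLN
import Pool.Agent.Helper90_ZP3.Evf
import Pool.Agent.Helper3_ZP3.PPT
import Pool.Agent.Helper24_ZP3.N3A
import Pool.Agent.Helper81_ZP3.N3B
import Pool.Agent.Helper92_ZP3.F3B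
import Pool.Agent.Helper17_ZP3.DN3
import Pool.Agent.Helper9_ZP3.FN3

/-!
Squad ZP3: assembly.
-/

set_option autoImplicit false

namespace Pool.Agent.ZP3.H51

open Pool.Agent.ZPT Pool.Agent.ZP3

/-- The final theorem in the form of the row FN3. -/
theorem asm : FN3Stmt := by
  -- ZPT
  have je := ZPT.H56.je
  have ji := ZPT.H25.ji je
  have js := ZPT.H77.js je
  have hf := ZPT.H32.hf
  have hu := ZPT.H32.hu
  have hi := ZPT.H3.hi ji hf hu
  have mf := ZPT.H39.mf je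
  have mp := ZPT.H76.mp je hi
  have mc := ZPT.H41.mc mf mp
  have ic := ZPT.H25.ic ji hf
  have ib := ZPT.H25.ib js
  have is_ := ZPT.H25.is_
  have ev := ZPT.H84.ev
  have ue := ZPT.H3U.ue ev
  have ui := ZPT.H70.ui
  have ux := ZPT.H62.ux je ev ue ui
  have uq := ZPT.H88.uq
  have hs' := ZPT.H51.hs ev
  have hc := ZPT.H18.hc
  have sq := ZPT.H84.sq
  have ms := ZPT.H18.ms ev uq hs' hc sq mc
  have mk := ZPT.H18.mk ev hs' ms
  have nw := ZPT.H49.nw
  have ps := ZPT.H62.ps ux hc mk nw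
  have eh := ZPT.H88.eh
  have tb := ZPT.H88.tb
  have ti := ZPT.H88.ti
  have kt := ZPT.H88.kt
  have ts := ZPT.H88.ts
  have ik := ZPT.H92.ik ic eh tb ts ZPT.H62.tp
  have nn := ZPT.H41.nn tb ZPT.H49.rv ZPT.H88.fo
  have la := ZPT.H25.la
  have ca := ZPT.H25.ca la
  have gr := ZPT.H88.gr
  have cf := ZPT.H49.cf
  have pf := ZPT.H41.pf
  have tq := ZPT.H62.tq
  have kx := ZPT.H15.kx
  -- ZP3
  have urr := ZP3.H60.urr
  have urt := ZP3.H56.urt
  have ura := ZP3.H56.ura gr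
  have thb := ZP3.H32.thb
  have spl := ZP3.H82.spl
  have wtm := ZP3.H33.wtm
  have wwn := ZP3.H33.wwn
  have res := ZP3.H10.res wtm
  have rou := ZP3.H48.rou spl wtm wwn
  have zkl := ZP3.H48.zkl wwn thb
  have wlm := ZP3.H60.wlm zkl rou thb
  have lvv := ZP3.H83.lvv spl urr urt wwn thb
  have dep := ZP3.H67.dep
  have ttl := ZP3.H28.ttl urr urt spl wwn wlm lvv dep thb
  have tat := ZP3.H39.tat
  have mth := ZP3.H39.mth
  have lp1 := ZP3.H69.lp1 ttl tat mth res rou urr urt dep thb spl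
  have lp2 := ZP3.H77.lp2 ttl tat res rou urr urt dep thb spl
  have gnr := ZP3.H20.gnr
  have ray := ZP3.H13.ray urr urt gnr wtm
  have sep := ZP3.H32.sep urr
  have vr2 := ZP3.H10.vr2 tat mth urr urt
  have vx1' := vx1 vr2 sep ray tat mth urr urt
  have vx2 := ZP3.H18.vx2 vr2 sep ray tat urr urt
  have loc3 := ZP3.H15.loc3 lp1 lp2 vx1' vx2
  have hen := ZP3.H21.hen
  have fgs := ZP3.H23.fgs
  have puf := ZP3.H19.puf hen
  have pum := ZP3.H65.pum puf fgs
  have evf := ZP3.H90.evf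
  have ppt := ZP3.H3.ppt pum fgs evf ura urr
  have bet' := bet ura
  have pln := ZP3.H65.pln la
  have ntp := ZP3.H23.ntp la gr
  have f3a := ZP3.H13.f3a pln ppt bet' ntp loc3 urr nn ik is_ kt ti tq eh
  have f3b := ZP3.H92.f3b ic ib cf ca pf
  exact ZP3.H09.fn3 kx ps f3a f3b ZP3.H17.dn3 ZP3.H17.bdc ura

end Pool.Agent.ZP3.H51
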