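import Pool.Agent.Helper51_ZP3.Near

/-!
Squad ZP3: the expansion in powers of `π` used in row VX1.
-/

set_option autoImplicit false

namespace Pool.Agent.ZP3.H51

open Polynomial Pool.Agent.ZPT Pool.Agent.ZP3

section
variable {K : Type} [NormedField K] [IsUltrametricDist K]

theorem polyL (R : Subring K) (hR : ∀ a ∈ R, ‖a‖ ≤ 1) (e r : ℕ) (he : 1 ≤ e) (her : e < r)
    (A : ℕ → K) (hA : ∀ n, A n ∈ R) (g : K) (hg : g ∈ R) :
    ∃ L : K[X], (∀ n, L.coeff n ∈ R) ∧ ∀ τ ∈ R, ∃ Ls : ℕ → K, (∀ i, Ls i ∈ R) ∧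
      Ls e = L.eval τ ∧ ∀ π : K, ‖π‖ ≤ 1 →
        ‖((∑ n ∈ Finset.range (e + 1), A n * (π * τ) ^ n) + g * π ^ (r - e) * τ ^ r) ^ e -
          (A 0 ^ e + ∑ i ∈ Finset.Icc 1 e, π ^ i * Ls i)‖ ≤ ‖π‖ ^ (e + 1) := by
  let Q : R[X][X] := (∑ n ∈ Finset.range (e + 1), C (C (⟨A n, hA n⟩ : R) * X ^ n) * X ^ n) +
    C (C (⟨g, hg⟩ : R) * X ^ r) * X ^ (r - e)
  refine ⟨((Q ^ e).coeff e).map R.subtype, fun n => ?_, fun τ hτ => ?_⟩
  · rw [coeff_map]; exact (((Q ^ e).coeff e).coeff n).2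
  let ev : R[X] →+* R := evalRingHom (⟨τ, hτ⟩ : R)
  let Qk : K[X] := (Q.map ev).map R.subtype
  have hco : ∀ i, (Qk ^ e).coeff i = (((Q ^ e).map ev).coeff i : K) := by
    intro i
    have : Qk ^ e = ((Q ^ e).map ev).map R.subtype := by
      simp only [Qk, Polynomial.map_pow]
    rw [this, coeff_map]; rfl
  refine ⟨fun i => (Qk ^ e).coeff i, fun i => ?_, ?_, fun π hπ => ?_⟩
  · simp only [hco]; exact (((Q ^ e).map ev).coeff i).2
  · simp only [hco]
    rw [coeff_map]
    have h1 : ((((Q ^ e).coeff e).map R.subtype).eval τ) =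
        (((Q ^ e).coeff e).map R.subtype).eval (R.subtype ⟨τ, hτ⟩) := rfl
    rw [h1, eval_map_apply]
    rfl
  · have hev : ∀ x : K, Qk.eval x = (∑ n ∈ Finset.range (e + 1), A n * (x * τ) ^ n) +
        g * x ^ (r - e) * τ ^ r := by
      intro x
      simp only [Qk, Q, ev, Polynomial.map_add, Polynomial.map_sum, Polynomial.map_mul,
        Polynomial.map_pow, map_X, map_C, eval_add, eval_finsetSum, eval_mul, eval_pow, eval_X,
        eval_C, map_mul, map_pow, coe_evalRingHom, Subring.subtype_apply]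
      congr 1
      · refine Finset.sum_congr rfl fun n _ => ?_
        rw [mul_pow]; ring
      · ring
    have h0 : (Qk ^ e).coeff 0 = A 0 ^ e := by
      rw [coeff_zero_eq_eval_zero, eval_pow, hev 0]
      congr 1
      have h2 : (0 : K) ^ (r - e) = 0 := zero_pow (by omega)
      rw [h2, mul_zero, zero_mul (τ ^ r), add_zero, Finset.sum_range_succ']
      simp
    have h3 := ptrunc (Qk ^ e) (fun n => hR _ (by rw [hco]; exact (((Q ^ e).map ev).coeff n).2))
      π hπ (e + 1)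
    rw [eval_pow, hev π] at h3
    have h4 : ∑ n ∈ Finset.range (e + 1), (Qk ^ e).coeff n * π ^ n =
        A 0 ^ e + ∑ i ∈ Finset.Icc 1 e, π ^ i * (Qk ^ e).coeff i := by
      rw [Finset.sum_range_succ', h0, pow_zero, mul_one, add_comm]
      congr 1
      have h5 : Finset.Icc 1 e = (Finset.range e).image (fun n => n + 1) := by
        ext i
        simp only [Finset.mem_Icc, Finset.mem_image, Finset.mem_range]
        constructor
        · rintro ⟨h1, h2⟩; exact ⟨i - 1, by omega, by omega⟩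
        · rintro ⟨a, h1, rfl⟩; omega
      rw [h5, Finset.sum_image (by intro a _ b _ h; exact Nat.succ_injective h)]
      refine Finset.sum_congr rfl fun n _ => mul_comm _ _
    rw [h4] at h3
    exact h3

end

end Pool.Agent.ZP3.H51
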